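import Pool.Agent.Helper61A.Main

/-!
# The non-differentiable set of an element of `Homeo¹(S)` has measure zero

Problem MP_bd3523_gt, Q2 (answer: no).

Let `S` be a smooth surface and let `f` be a homeomorphism of `S` which maps every `C¹` curve onto
a `C¹` curve. Then `f` is differentiable at almost every point of `S`.

Proof. Near a given point use the coordinate `w = 1 / (z - q)`, where `z` is a smooth coordinate and
`q` a point close by. The lines parallel to the axes of the `w`-plane are round circles in the
`z`-plane, so `C¹` curves; `f` maps them to `C¹` curves, and on each of them `f` is a monotone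
reparametrisation of the image curve. Hence `f` has partial derivatives (with respect to `w`) almost
everywhere. By the theorem of Gehring and Lehto an open continuous map of a plane domain which
has partial derivatives almost everywhere is differentiable almost everywhere.
-/

set_option autoImplicit false

open Set MeasureTheory
open scoped Manifold ContDiff

namespace Pool.Agent.Results.MP_bd3523_gt.NonDiffNullSet

open R789.C1

universe u

/-- A subset `E` of the surface `S` has positive measure: for some smooth chart `φ` of `S` the
plane set `φ(E ∩ U)`, `U` the domain of `φ`, has positive two-dimensional Lebesgue outer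
measure. -/
def HasPositiveMeasure {S : Type u} [TopologicalSpace S] [ChartedSpace ℂ S] (E : Set S) : Prop :=
  ∃ φ ∈ IsManifold.maximalAtlas 𝓘(ℝ, ℂ) ∞ S, volume (φ '' (E ∩ φ.source)) ≠ 0

/-- Let `S` be a smooth surface. A homeomorphism of `S` that maps every `C¹` curve onto a `C¹` curve
is differentiable outside a set of measure zero; in particular the non-differentiable set of
every element of `Homeo¹(S)` has measure zero. -/
theorem result (S : Type u) [TopologicalSpace S] [T2Space S] [ChartedSpace ℂ S]
    [IsManifold 𝓘(ℝ, ℂ) ∞ S] :
    (∀ f : S ≃ₜ S, (∀ Γ : Set S, IsC1Curve Γ → IsC1Curve (f '' Γ)) →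
      ¬ HasPositiveMeasure (nonDiff f)) ∧
    ∀ f : S ≃ₜ S, Homeo1 f → ¬ HasPositiveMeasure (nonDiff f) := by
  have h : ∀ f : S ≃ₜ S, (∀ Γ : Set S, IsC1Curve Γ → IsC1Curve (f '' Γ)) →
      ¬ HasPositiveMeasure (nonDiff f) := by
    rintro f hf ⟨φ, hφ, h⟩
    exact h (Pool.Agent.Helper61A.volume_nonDiff hf hφ)
  exact ⟨h, fun f hf => h f hf.1⟩

end Pool.Agent.Results.MP_bd3523_gt.NonDiffNullSet
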